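import Pool.Agent.H73.CBE.Stmts

/-!
Board CBE, row UKL: the global bounds for the derivatives of `u ∘ fᵏ`, from the local ones (UKB).
-/

set_option autoImplicit false

open Set Filter Topology

namespace Pool.CBE

theorem ukl_far (L T h : ℝ) (hL : 0 < L) (hT : 1 ≤ T) (hh : (1 / 16) / T ≤ h) :
    L * T + L * T ≤ 32 * L * (T * T) * h := by
  have hT0 : 0 < T := lt_of_lt_of_le one_pos hT
  have h1 : 1 / 16 ≤ h * T := (div_le_iff₀ hT0).1 hh
  have h2 : 0 ≤ L * T := (mul_pos hL hT0).le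
  have h3 := mul_le_mul_of_nonneg_left h1 h2
  have e : 32 * L * (T * T) * h = 32 * (L * T * (h * T)) := by ring
  rw [e]
  linarith

theorem UKL_thm (h1 : UKBStmt) : UKLStmt := by
  intro n f d η C θ a hyp
  obtain ⟨L, hL, hUKB⟩ := h1 n f d η C θ a hyp
  have hθ0 : 0 < θ := lt_of_lt_of_le one_pos hyp.hθ
  refine ⟨32 * L, by linarith, ?_⟩
  intro k z z' hz hz'
  have hT : 1 ≤ θ ^ k := one_le_pow₀ hyp.hθ
  have hT0 : 0 < θ ^ k := lt_of_lt_of_le one_pos hT
  have hr : 0 < (1 / 16) / θ ^ k := by positivity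
  have hsq : θ ^ (2 * k) = θ ^ k * θ ^ k := by rw [two_mul, pow_add]
  obtain ⟨hA, hB⟩ := hUKB k z hz
  obtain ⟨hA', _⟩ := hUKB k z' hz'
  obtain ⟨hd, hn⟩ := hA z (Metric.mem_ball_self hr)
  obtain ⟨_, hn'⟩ := hA' z' (Metric.mem_ball_self hr)
  have hLT : 0 ≤ L * θ ^ k := (mul_pos hL hT0).le
  have hLT2 : 0 ≤ L * θ ^ (2 * k) * ‖z - z'‖ := by
    have : 0 < θ ^ (2 * k) := pow_pos hθ0 _
    positivity
  refine ⟨hd, ?_, ?_⟩
  · have e : 32 * L * θ ^ k = 32 * (L * θ ^ k) := by ring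
    rw [e]
    linarith
  · by_cases hc : ‖z - z'‖ < (1 / 16) / θ ^ k
    · have hmem : z' ∈ Metric.ball z ((1 / 16) / θ ^ k) := by
        rw [Metric.mem_ball, dist_comm, dist_eq_norm]
        exact hc
      have h3 := hB z (Metric.mem_ball_self hr) z' hmem
      have e : 32 * L * θ ^ (2 * k) * ‖z - z'‖ = 32 * (L * θ ^ (2 * k) * ‖z - z'‖) := by ring
      rw [e]
      linarith
    · have hc' : (1 / 16) / θ ^ k ≤ ‖z - z'‖ := not_lt.1 hc
      have h4 := ukl_far L (θ ^ k) ‖z - z'‖ hL hT hc'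
      have h5 := norm_sub_le (fderiv ℝ (fun y => u f d (f^[k] y)) z)
        (fderiv ℝ (fun y => u f d (f^[k] y)) z')
      rw [hsq]
      linarith

end Pool.CBE
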